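import Pool.Agent.H143R3.MT.Stmts

/-!
# Task A3 of the moving traps project: sup bound for the Skellam law
-/

namespace Pool.Agent.H509R3.MT

open MeasureTheory ProbabilityTheory
open scoped ENNReal NNReal
open Pool.Agent.H143R3.MT

lemma sqrt_le_one_add {x : ℝ} (hx : 0 ≤ x) : √x ≤ 1 + x := by
  rw [Real.sqrt_le_left (by linarith)]
  nlinarith

lemma poisson_sup {l : ℝ} (hl : 0 < l) (m : ℕ) :
    Real.exp (-l) * l ^ m / (m.factorial : ℝ) ≤ 6 / √l := by
  have hsl : 0 < √l := Real.sqrt_pos.mpr hl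
  rw [le_div_iff₀ hsl]
  rcases Nat.eq_zero_or_pos m with rfl | hm
  · simp only [pow_zero, mul_one, Nat.factorial_zero, Nat.cast_one, div_one]
    have h1 : √l ≤ Real.exp l := (sqrt_le_one_add hl.le).trans (by
      have := Real.add_one_le_exp l; linarith)
    have h2 : Real.exp (-l) * √l ≤ Real.exp (-l) * Real.exp l :=
      mul_le_mul_of_nonneg_left h1 (Real.exp_pos _).le
    rw [← Real.exp_add] at h2
    simp at h2
    linarith
  · have hmr : (0 : ℝ) < m := by exact_mod_cast hm
    have hsm : 0 < √(m : ℝ) := Real.sqrt_pos.mpr hmr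
    set x : ℝ := l / m with hx
    have hx0 : 0 < x := div_pos hl hmr
    have hlx : l = x * m := by rw [hx]; field_simp
    have hst := Stirling.le_factorial_stirling m
    have hst2 : √(m : ℝ) * ((m : ℝ) / Real.exp 1) ^ m ≤ (m.factorial : ℝ) := by
      refine le_trans ?_ hst
      refine mul_le_mul_of_nonneg_right ?_ (by positivity)
      apply Real.sqrt_le_sqrt
      have := Real.pi_gt_three
      nlinarith
    have hb : 0 < √(m : ℝ) * ((m : ℝ) / Real.exp 1) ^ m := by positivity
    have hy1 : x * Real.exp (1 - x) ≤ 1 := by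
      have h := Real.add_one_le_exp (x - 1)
      have h2 : x * Real.exp (1 - x) ≤ Real.exp (x - 1) * Real.exp (1 - x) :=
        mul_le_mul_of_nonneg_right (by linarith) (Real.exp_pos _).le
      rw [← Real.exp_add] at h2
      simpa using h2
    have hy0 : 0 ≤ x * Real.exp (1 - x) := by positivity
    have key : Real.exp (-l) * l ^ m * √l =
        (√x * (x * Real.exp (1 - x)) ^ m) * (√(m : ℝ) * ((m : ℝ) / Real.exp 1) ^ m) := by
      have e1 : √l = √x * √(m : ℝ) := by rw [hlx, Real.sqrt_mul hx0.le]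
      have e2 : Real.exp (-l) = (Real.exp (1 - x)) ^ m * ((Real.exp 1)⁻¹) ^ m := by
        rw [← mul_pow, ← Real.exp_neg, ← Real.exp_add, ← Real.exp_nat_mul, hlx]
        congr 1
        ring
      rw [e1, e2]
      conv_lhs => rw [hlx]
      rw [mul_pow, mul_pow, div_eq_mul_inv, mul_pow]
      ring
    have hpow : (x * Real.exp (1 - x)) ^ m ≤ x * Real.exp (1 - x) :=
      pow_le_of_le_one hy0 hy1 hm.ne'
    have hbd : √x * (x * Real.exp (1 - x)) ^ m ≤ 6 := by
      have h1 : √x * (x * Real.exp (1 - x)) ^ m ≤ (1 + x) * (x * Real.exp (1 - x)) :=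
        mul_le_mul (sqrt_le_one_add hx0.le) hpow (by positivity) (by linarith)
      have h2 := Real.quadratic_le_exp_of_nonneg hx0.le
      have h3 : (1 + x) * (x * Real.exp (1 - x)) ≤ 2 * Real.exp x * Real.exp (1 - x) := by
        rw [← mul_assoc]
        refine mul_le_mul_of_nonneg_right ?_ (Real.exp_pos _).le
        nlinarith
      have h4 : 2 * Real.exp x * Real.exp (1 - x) = 2 * Real.exp 1 := by
        rw [mul_assoc, ← Real.exp_add]
        congr 2
        ring
      have h5 := Real.exp_one_lt_d9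
      linarith
    rw [div_mul_eq_mul_div, div_le_iff₀ (by positivity), key]
    exact mul_le_mul hbd hst2 hb.le (by norm_num)

lemma subsingleton_le {μ : Measure ℕ} {B : ℝ≥0∞} (h : ∀ m, μ {m} ≤ B) {S : Set ℕ}
    (hS : S.Subsingleton) : μ S ≤ B := by
  rcases hS.eq_empty_or_singleton with rfl | ⟨m, rfl⟩
  · simp
  · exact h m

theorem taskA3 : TaskA3 := by
  refine ⟨12, fun s k hs => ?_⟩
  have hsr : (0 : ℝ) < s := by exact_mod_cast hs
  have hl : (0 : ℝ) < ((s / 2 : ℝ≥0) : ℝ) := by
    rw [NNReal.coe_div]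
    positivity
  set μ := poissonMeasure (s / 2) with hμ
  have hsing : ∀ m, μ {m} ≤ ENNReal.ofReal (((12 : ℝ≥0) : ℝ) / √(s : ℝ)) := by
    intro m
    rw [hμ, poissonMeasure_singleton]
    apply ENNReal.ofReal_le_ofReal
    refine (poisson_sup hl m).trans ?_
    have hs1 : 0 < √(s : ℝ) := Real.sqrt_pos.mpr hsr
    have h2 : √(s : ℝ) / 2 ≤ √((s / 2 : ℝ≥0) : ℝ) := by
      apply Real.le_sqrt_of_sq_le
      rw [div_pow, Real.sq_sqrt hsr.le, NNReal.coe_div]
      push_cast
      linarith
    have h12 : ((12 : ℝ≥0) : ℝ) = 12 := by norm_num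
    rw [div_le_div_iff₀ (Real.sqrt_pos.mpr hl) hs1, h12]
    linarith
  unfold sk skellam
  rw [Measure.map_apply (by fun_prop) (measurableSet_singleton k), ← hμ,
    Measure.prod_apply_symm (MeasurableSet.of_discrete)]
  calc ∫⁻ y, μ ((fun x => (x, y)) ⁻¹' ((fun p : ℕ × ℕ => (p.1 : ℤ) - p.2) ⁻¹' {k})) ∂μ
      ≤ ∫⁻ _, ENNReal.ofReal (((12 : ℝ≥0) : ℝ) / √(s : ℝ)) ∂μ := by
        refine lintegral_mono fun y => subsingleton_le hsing ?_
        intro a ha b hb
        simp only [Set.mem_preimage, Set.mem_singleton_iff] at ha hb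
        have : (a : ℤ) = b := by linarith
        exact_mod_cast this
    _ = ENNReal.ofReal (((12 : ℝ≥0) : ℝ) / √(s : ℝ)) := by
        rw [lintegral_const, measure_univ, mul_one]

end Pool.Agent.H509R3.MT
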